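import Pool.Agent.H20NE.Syn

/-!
# Every pattern of checks is within few changes
-/

set_option autoImplicit false

namespace Pool.Agent.H20NE

open Finset

theorem chk_zero (t f : ℕ → Bool) : chk 0 t f = false := by
  simp [chk]

theorem chk_succ (P : ℕ) (t f : ℕ → Bool) :
    chk (P + 1) t f = Bool.xor (t P && f P) (chk P t f) := by
  unfold chk
  rw [List.range_succ, List.filter_append, List.length_append]
  cases h : t P && f P
  · simp [h]
  · simp only [h, List.filter_cons_of_pos, List.filter_nil, List.length_cons, List.length_nil,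
      Bool.true_xor]
    rw [← decide_not, decide_eq_decide]
    omega

theorem chk_xor (P : ℕ) (t f g : ℕ → Bool) :
    chk P t (fun p => Bool.xor (f p) (g p)) = Bool.xor (chk P t f) (chk P t g) := by
  induction P with
  | zero => simp [chk_zero]
  | succ P ih =>
    rw [chk_succ, chk_succ, chk_succ, ih]
    cases t P <;> cases f P <;> cases g P <;> cases chk P t f <;> cases chk P t g <;> rfl

theorem chk_none {P : ℕ} {t f : ℕ → Bool} (h : ∀ p < P, (t p && f p) = false) :
    chk P t f = false := by
  induction P with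
  | zero => exact chk_zero _ _
  | succ P ih =>
    rw [chk_succ, h P (Nat.lt_succ_self P), ih fun p hp => h p (Nat.lt_succ_of_lt hp)]
    rfl

theorem chk_one {P p₀ : ℕ} {t f : ℕ → Bool} (h₀ : p₀ < P) (h : ∀ p < P, p ≠ p₀ →
    (t p && f p) = false) : chk P t f = (t p₀ && f p₀) := by
  induction P with
  | zero => omega
  | succ P ih =>
    rw [chk_succ]
    by_cases hP : p₀ = P
    · subst hP
      rw [chk_none fun p hp => h p (by omega) (by omega)]
      exact Bool.xor_false _
    · rw [h P (Nat.lt_succ_self P) (Ne.symm hP), ih (by omega) fun p hp => h p (by omega)]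
      exact Bool.false_xor _

/-- the positions -/
abbrev Pos (j s : ℕ) : Type := Fin j × (Fin s → Bool)

theorem card_pos (j s : ℕ) : Fintype.card (Pos j s) = j * 2 ^ s := by
  simp

/-- numbers of the positions -/
noncomputable def eP (j s : ℕ) : Pos j s ≃ Fin (j * 2 ^ s) := Fintype.equivFinOfCardEq (card_pos j s)

/-- the numbers of the checks -/
def eR (j s : ℕ) : Fin j × Fin s ≃ Fin (j * s) := finProdFinEquiv

/-- the table -/
noncomputable def Tt (j s r p : ℕ) : Bool :=
  if h : r < j * s ∧ p < j * 2 ^ s then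
    decide (((eR j s).symm ⟨r, h.1⟩).1 = ((eP j s).symm ⟨p, h.2⟩).1) &&
      ((eP j s).symm ⟨p, h.2⟩).2 ((eR j s).symm ⟨r, h.1⟩).2
  else false

theorem Tt_eq (j s : ℕ) (i i' : Fin j) (b : Fin s) (a : Fin s → Bool) :
    Tt j s (eR j s (i, b)) (eP j s (i', a)) = (decide (i = i') && a b) := by
  unfold Tt
  rw [dif_pos ⟨(eR j s (i, b)).isLt, (eP j s (i', a)).isLt⟩]
  simp

/-- the table as a list -/
noncomputable def tl (j s : ℕ) : List Bool :=
  (List.range ((j * s) * (j * 2 ^ s))).map fun q => Tt j s (q / (j * 2 ^ s)) (q % (j * 2 ^ s))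

theorem tl_getD {j s r p : ℕ} (hr : r < j * s) (hp : p < j * 2 ^ s) :
    (tl j s).getD (r * (j * 2 ^ s) + p) false = Tt j s r p := by
  have h1 : r * (j * 2 ^ s) + p < (j * s) * (j * 2 ^ s) := by
    calc r * (j * 2 ^ s) + p < r * (j * 2 ^ s) + j * 2 ^ s := by omega
      _ = (r + 1) * (j * 2 ^ s) := by ring
      _ ≤ _ := Nat.mul_le_mul_right _ hr
  unfold tl
  rw [List.getD_eq_getElem _ _ (by simpa using h1)]
  simp only [List.getElem_map, List.getElem_range]
  have h2 : (r * (j * 2 ^ s) + p) / (j * 2 ^ s) = r := by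
    rw [mul_comm, Nat.mul_add_div (by omega), Nat.div_eq_of_lt hp, add_zero]
  have h3 : (r * (j * 2 ^ s) + p) % (j * 2 ^ s) = p := by
    rw [mul_comm, Nat.mul_add_mod, Nat.mod_eq_of_lt hp]
  rw [h2, h3]

theorem length_tl (j s : ℕ) : (tl j s).length = (j * s) * (j * 2 ^ s) := by
  unfold tl
  simp

/-- **Covering.** -/
theorem cover (j s : ℕ) (f c : ℕ → Bool) : ∃ D : Finset ℕ, D ⊆ range (j * 2 ^ s) ∧ D.card ≤ j ∧
    ∀ r < j * s, chk (j * 2 ^ s) (fun p => (tl j s).getD (r * (j * 2 ^ s) + p) false)
      (fun p => Bool.xor (f p) (decide (p ∈ D))) = c r := by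
  classical
  set P := j * 2 ^ s with hP
  set d : ℕ → Bool := fun r => Bool.xor (chk P (Tt j s r) f) (c r) with hd
  set q : Fin j → ℕ := fun i => eP j s (i, fun b => d (eR j s (i, b))) with hq
  set D : Finset ℕ := univ.image q with hD
  have hqP : ∀ i, q i < P := fun i => (eP j s _).isLt
  refine ⟨D, fun p hp => ?_, ?_, fun r hr => ?_⟩
  · obtain ⟨i, _, rfl⟩ := mem_image.1 hp
    exact mem_range.2 (hqP i)
  · exact card_image_le.trans (by simp)
  · have e1 : chk P (fun p => (tl j s).getD (r * P + p) false)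
        (fun p => Bool.xor (f p) (decide (p ∈ D))) =
        chk P (Tt j s r) (fun p => Bool.xor (f p) (decide (p ∈ D))) := by
      refine chk_congr fun p hp => ?_
      rw [hP, tl_getD hr hp]
    rw [e1, chk_xor]
    obtain ⟨⟨i, b⟩, hib⟩ : ∃ ib, eR j s ib = ⟨r, hr⟩ := ⟨(eR j s).symm ⟨r, hr⟩, by simp⟩
    have hrv : r = eR j s (i, b) := by rw [hib]
    have e2 : chk P (Tt j s r) (fun p => decide (p ∈ D)) = d r := by
      rw [chk_one (p₀ := q i) (hqP i)]
      · have h1 : q i ∈ D := mem_image_of_mem _ (mem_univ i)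
        rw [decide_eq_true h1, Bool.and_true, hrv, hq]
        dsimp only
        rw [Tt_eq]
        simp
      · intro p hp hne
        by_cases hpD : p ∈ D
        · obtain ⟨i', _, rfl⟩ := mem_image.1 hpD
          have hi : i ≠ i' := fun h => hne (by rw [h])
          rw [hrv, hq]
          dsimp only
          rw [Tt_eq, decide_eq_false hi]
          rfl
        · rw [decide_eq_false hpD, Bool.and_false]
    rw [e2, hd]
    dsimp only
    cases chk P (Tt j s r) f <;> cases c r <;> rfl

end Pool.Agent.H20NE
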