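import Pool.Agent.H20NE.Near1
import Pool.Agent.H20RD.HardPS
import Pool.Agent.W900.RB.Stage
import Pool.Agent.TH678.SETH.Down
import Pool.Agent.TH678.RS.Diag

/-!
# Superpolynomially many changes separate `⊕P` from `PP`
-/

set_option autoImplicit false

namespace Pool.Agent.H20NE

open Filter Finset Pool.Agent.NPC Pool.Agent.H622R2 Pool.Agent.H620R2.Gauge
open Pool.Agent.W900.CH (Close)
open Pool.Agent.W900.RB (Super)
open Pool.Agent.H20RD Pool.Agent.H20RD.Abfr

theorem oddL_ps (A : Oracle) : IsPSPACE A (oddL A) := by
  have hg : Poly fun y : List Bool => y.drop (y.length / 2) :=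
    poly_drop Poly.id (Poly.div (UPoly.length Poly.id).toPoly (NPC.Poly.const 2))
  have h := TH678.PN.IsPSPACE.of_map hg (parLang_pspace fun y => A (y.drop (y.length / 2)))
  have e : parLang (fun y => A (y.drop (y.length / 2))) = oddL A := by
    ext x
    unfold parLang oddL
    simp only [Set.mem_ofPred_eq]
    have h1 : ((strs x.length).filter fun y => A y = true).card =
        ((range (2 ^ x.length)).filter fun j => A ((x ++ bitsOf x.length j).drop
          ((x ++ bitsOf x.length j).length / 2)) = true).card := by
      rw [← image_bitsOf, filter_image, card_image_of_injOn]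
      · congr 1
        ext j
        simp only [mem_filter]
        refine and_congr_right fun _ => ?_
        rw [List.length_append, length_bitsOf, show (x.length + x.length) / 2 = x.length by omega,
          List.drop_left]
      · intro i hi j hj h
        rw [mem_coe, mem_filter, mem_range] at hi hj
        exact bitsOf_inj hi.1 hj.1 h
    rw [h1]
  rwa [e] at h

theorem oddL_par (A : Oracle) : IsParityP A (oddL A) := by
  have h1 := IsFP.tt (A := A) (Q := fun y => [(unpair y).1]) (H := fun y => y.2)
    (Poly.cons (Poly.fst poly_unpair) (NPC.Poly.const [])) (Poly.snd Poly.id)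
  refine ⟨_, Polynomial.X, h1, fun x => ?_⟩
  simp only [List.map_cons, List.map_nil, unpair_pairBits, Polynomial.eval_X, List.cons.injEq,
    and_true]
  rw [ncard_eq]
  rfl

/-- the bits of the strings in `X` are changed -/
def fl (B : Oracle) (X : Finset (List Bool)) : Oracle := fun y => Bool.xor (B y) (decide (y ∈ X))

theorem deg_fl (B : Oracle) (X₀ : Finset (List Bool)) (y : List Bool) :
    Deg 1 fun X => if fl B (X₀ ∪ X) y = true then (1 : ℝ) else 0 := by
  unfold fl
  by_cases hy : y ∈ X₀
  · have h : (fun X : Finset (List Bool) => if Bool.xor (B y) (decide (y ∈ X₀ ∪ X)) = true then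
        (1 : ℝ) else 0) = fun _ => if Bool.xor (B y) true = true then (1 : ℝ) else 0 := by
      funext X
      rw [decide_eq_true (mem_union_left X hy)]
    rw [h]
    exact Deg.const _
  · have h1 : Deg (α := List Bool) 1 (mono {y}) := Deg.mono (by simp)
    cases hB : B y with
    | true =>
      have h : (fun X : Finset (List Bool) => if Bool.xor true (decide (y ∈ X₀ ∪ X)) = true then
          (1 : ℝ) else 0) = fun X => 1 - mono {y} X := by
        funext X
        unfold mono
        simp only [singleton_subset_iff, mem_union, hy, false_or]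
        split_ifs <;> simp_all
      rw [h]
      exact (Deg.const 1).sub h1
    | false =>
      have h : (fun X : Finset (List Bool) => if Bool.xor false (decide (y ∈ X₀ ∪ X)) = true then
          (1 : ℝ) else 0) = mono {y} := by
        funext X
        unfold mono
        simp only [singleton_subset_iff, mem_union, hy, false_or]
        split_ifs <;> simp_all
      rw [h]
      exact h1

/-- the sign which decides acceptance -/
theorem ppacc_sign' (M : Alg) (r : Polynomial ℕ) (B : Oracle) (X₀ : Finset (List Bool))
    (x : List Bool) : ∃ q : Finset (List Bool) → ℝ,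
      Deg (M.p.eval (2 * r.eval x.length + 1 + x.length)) q ∧
      ∀ X, PPacc M r (fl B (X₀ ∪ X)) x ↔ 0 < q X := by
  classical
  refine ⟨fun X => 2 * (∑ w ∈ strs (r.eval x.length),
    if M.out (fl B (X₀ ∪ X)) (pairBits w x) = some [true] then (1 : ℝ) else 0) -
      2 ^ r.eval x.length, ?_, fun X => ?_⟩
  · refine ((Deg.sum fun w hw => ?_).smul 2).sub (Deg.const _)
    have h := deg_run M (fun X => fl B (X₀ ∪ X)) (deg_fl B X₀) (pairBits w x)
      [true] (M.p.eval (pairBits w x).length) []
    have e : (pairBits w x).length = 2 * r.eval x.length + 1 + x.length := by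
      rw [A2.length_pairBits, mem_strs.1 hw]
      ring
    rw [e] at h
    unfold Alg.out
    rw [e]
    exact h
  · unfold PPacc
    change _ ↔ 0 < 2 * (∑ w ∈ strs (r.eval x.length), if M.out (fl B (X₀ ∪ X))
      (pairBits w x) = some [true] then (1 : ℝ) else 0) - 2 ^ r.eval x.length
    rw [ncard_eq, sum_boole, sub_pos]
    constructor
    · intro h
      have : ((2 ^ r.eval x.length : ℕ) : ℝ) < ((2 * ((strs (r.eval x.length)).filter fun w =>
          M.out (fl B (X₀ ∪ X)) (pairBits w x) = some [true]).card : ℕ) : ℝ) := by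
        exact_mod_cast h
      push_cast at this
      simpa using this
    · intro h
      have : ((2 ^ r.eval x.length : ℕ) : ℝ) < ((2 * ((strs (r.eval x.length)).filter fun w =>
          M.out (fl B (X₀ ∪ X)) (pairBits w x) = some [true]).card : ℕ) : ℝ) := by
        push_cast
        simpa using h
      exact_mod_cast this

/-- the parity changes with every change -/
theorem odd_fl (B : Oracle) {x : List Bool} {Y : Finset (List Bool)} (hY : Y ⊆ strs x.length) :
    x ∈ oddL (fl B Y) ↔ Odd (((strs x.length).filter fun y => B y = true).card + Y.card) := by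
  unfold oddL
  rw [Set.mem_ofPred_eq]
  set S := strs x.length with hS
  have h1 : (S.filter fun y => fl B Y y = true) =
      ((S.filter fun y => B y = true) \ Y) ∪ (Y \ (S.filter fun y => B y = true)) := by
    ext y
    simp only [mem_filter, mem_union, Finset.mem_sdiff]
    unfold fl
    by_cases hy : y ∈ Y
    · have hyS := hY hy
      cases hB : B y <;> simp [hy, hyS]
    · cases hB : B y <;> simp [hy]
  have h2 : Disjoint ((S.filter fun y => B y = true) \ Y)
      (Y \ (S.filter fun y => B y = true)) := disjoint_sdiff_sdiff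
  rw [h1, card_union_of_disjoint h2]
  have h3 := card_sdiff_add_card_inter (S.filter fun y => B y = true) Y
  have h4 := card_sdiff_add_card_inter Y (S.filter fun y => B y = true)
  rw [inter_comm] at h4
  rw [Nat.odd_iff, Nat.odd_iff]
  omega

/-- **Some small set of changes makes a machine fail.** -/
theorem exists_wrong (M : Alg) (r : Polynomial ℕ) (B : Oracle) {n : ℕ}
    (hn : M.p.eval (2 * r.eval n + 1 + n) + 2 ≤ 2 ^ n) : ∃ Y : Finset (List Bool),
      Y ⊆ strs n ∧ Y.card ≤ M.p.eval (2 * r.eval n + 1 + n) + 2 ∧
      ¬ (List.replicate n true ∈ oddL (fl B Y) ↔ PPacc M r (fl B Y) (List.replicate n true)) := by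
  classical
  set d := M.p.eval (2 * r.eval n + 1 + n) with hd
  set x := List.replicate n true with hx
  have hxl : x.length = n := by simp [hx]
  obtain ⟨u₀, hu₀⟩ : ∃ u, u ∈ strs n := ⟨x, mem_strs.2 hxl⟩
  obtain ⟨U, hU1, hU2⟩ : ∃ U ⊆ (strs n).erase u₀, U.card = d + 1 := by
    refine exists_subset_card_eq ?_
    rw [card_erase_of_mem hu₀, card_strs]
    omega
  have hUs : U ⊆ strs n := hU1.trans (erase_subset _ _)
  have hu₀U : u₀ ∉ U := fun h => (mem_erase.1 (hU1 h)).1 rfl
  set b := ((strs n).filter fun y => B y = true).card with hb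
  set X₀ : Finset (List Bool) := if Odd b then {u₀} else ∅ with hX₀
  have hX₀s : X₀ ⊆ {u₀} := by
    rw [hX₀]
    split_ifs
    · exact Subset.refl _
    · exact empty_subset _
  have hX₀e : Even (b + X₀.card) := by
    rw [hX₀]
    split_ifs with h
    · rw [card_singleton]
      exact h.add_one
    · rw [card_empty, add_zero]
      exact Nat.not_odd_iff_even.1 h
  obtain ⟨q, hq1, hq2⟩ := ppacc_sign' M r B X₀ x
  rw [hxl] at hq1
  by_contra hcon
  push Not at hcon
  have h := abfr (S := U) (t := 0) hq1 (by rw [hU2]; omega) ∅ (fun X hX _ => ?_)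
  · simp at h
  · rw [mem_powerset] at hX
    have hdis : Disjoint X₀ X := by
      rw [disjoint_left]
      intro y h1 h2
      have h3 := mem_singleton.1 (hX₀s h1)
      rw [h3] at h2
      exact hu₀U (hX h2)
    have hsub : X₀ ∪ X ⊆ strs n := by
      refine union_subset (hX₀s.trans ?_) (hX.trans hUs)
      rw [singleton_subset_iff]
      exact hu₀
    have hcard : (X₀ ∪ X).card = X₀.card + X.card := card_union_of_disjoint hdis
    have h1 := hcon (X₀ ∪ X) hsub (by
      rw [hcard]
      have h2 := card_le_card hX
      have h3 := card_le_card hX₀s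
      rw [card_singleton] at h3
      omega)
    rw [← hq2 X, ← h1, odd_fl B (by rw [hxl]; exact hsub), hxl, hcard, ← hb, ← add_assoc]
    rw [Nat.odd_add']
    constructor
    · intro h2
      exact ⟨fun _ => hX₀e, fun _ => h2⟩
    · intro h2
      exact h2.2 hX₀e

/-- **Superpolynomially many changes.** -/
theorem near_parity {g : ℕ → ℝ} (hg : Super g) (O : Oracle) : ∃ A : Oracle, Close g O A ∧
    IsPSPACE A (oddL A) ∧ IsParityP A (oddL A) ∧ ¬ IsPP A (oddL A) := by
  classical
  have : Countable (Polynomial ℕ) := CC.poly_countable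
  have : Countable Alg := Alg.countable
  have hne : Nonempty (Alg × Polynomial ℕ) := ⟨⟨⟨fun _ => [], CC.const_polyTime _, 0⟩, 0⟩⟩
  obtain ⟨e, he⟩ := exists_surjective_nat (Alg × Polynomial ℕ)
  have key : ∃ A : Oracle, Close g O A ∧ ∀ k, ¬ ∀ x, (x ∈ oddL A ↔
      PPacc (e k).1 (e k).2 A x) := by
    refine Pool.Agent.H20NC.stages2 O (fun k A => ¬ ∀ x, (x ∈ oddL A ↔
      PPacc (e k).1 (e k).2 A x)) ?_
    intro k N T
    obtain ⟨M, r⟩ := e k
    dsimp only
    obtain ⟨b, hb⟩ := ppacc_local M r
    set D : Polynomial ℕ := M.p.comp (Polynomial.C 2 * r + Polynomial.C 1 + Polynomial.X) with hD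
    have hDe : ∀ n, D.eval n = M.p.eval (2 * r.eval n + 1 + n) := by
      intro n
      rw [hD, Polynomial.eval_comp]
      simp
    obtain ⟨c, hc⟩ := Pool.Agent.TH678.SETH.poly_pow2 (D + Polynomial.C (T + 2))
    have hce : ∀ m, D.eval m + (T + 2) ≤ (m + 2) ^ c := by
      intro m
      have := hc m
      rwa [Polynomial.eval_add, Polynomial.eval_C] at this
    have hpow : ∀ᶠ n : ℕ in atTop, D.eval n + 2 ≤ 2 ^ n := by
      filter_upwards [Pool.Agent.TH678.RS.ev_poly (2 ^ c) c] with n hn
      have h1 := hce n
      have h2 : (n + 2) ^ c ≤ 2 ^ c * (n + 1) ^ c := by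
        rw [← mul_pow]
        exact Nat.pow_le_pow_left (by omega) _
      omega
    obtain ⟨n, hn1, hn2, hn3⟩ := ((hg (2 * c)).and_eventually
      (hpow.and (eventually_ge_atTop (N + 2)))).exists
    have hsq : (n + 2) ^ c ≤ n ^ (2 * c) := by
      rw [pow_mul]
      exact Nat.pow_le_pow_left (by nlinarith) _
    set x : List Bool := List.replicate n true with hx
    have hxl : x.length = n := by simp [hx]
    refine ⟨n, D.eval n + 2, max (n + 1) (b.eval n + 1), by omega, fun m hm => ?_, fun B _ => ?_⟩
    · have h1 := hn1 m hm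
      have h2 : T + (D.eval n + 2) ≤ n ^ (2 * c) := by
        have := hce n
        omega
      have h3 : ((T + (D.eval n + 2) : ℕ) : ℝ) ≤ (n : ℝ) ^ (2 * c) := by exact_mod_cast h2
      linarith
    · obtain ⟨Y, hY1, hY2, hY3⟩ := exists_wrong M r B (n := n) (by rw [← hDe]; exact hn2)
      rw [← hDe] at hY2
      have hne : ∀ y, fl B Y y ≠ B y → y ∈ Y := by
        intro y hy
        by_contra hc
        apply hy
        unfold fl
        rw [decide_eq_false hc, Bool.xor_false]
      refine ⟨fl B Y, fun y hy => ?_, ?_, fun B'' hB'' hcon => hY3 ?_⟩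
      · have h1 := mem_strs.1 (hY1 (hne y hy))
        rw [h1]
        exact ⟨le_rfl, lt_of_lt_of_le (Nat.lt_succ_self _) (le_max_left _ _)⟩
      · have h1 : {y | B y ≠ fl B Y y} ⊆ (Y : Set (List Bool)) := fun y hy => hne y (Ne.symm hy)
        refine (Set.ncard_le_ncard h1 (Finset.finite_toSet _)).trans ?_
        rw [Set.ncard_coe_finset]
        exact hY2
      · have h1 := hcon x
        have e1 : x ∈ oddL B'' ↔ x ∈ oddL (fl B Y) := by
          unfold oddL
          rw [Set.mem_ofPred_eq, Set.mem_ofPred_eq, hxl]
          have : ((strs n).filter fun y => B'' y = true) =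
              (strs n).filter fun y => fl B Y y = true := by
            refine filter_congr fun y hy => ?_
            rw [mem_strs] at hy
            rw [hB'' y (lt_of_lt_of_le (by omega) (le_max_left _ _))]
          rw [this]
        have e2 : PPacc M r B'' x ↔ PPacc M r (fl B Y) x := by
          refine hb _ _ _ fun z hz => hB'' z ?_
          rw [hxl] at hz
          exact lt_of_lt_of_le (by omega) (le_max_right _ _)
        rw [← e1, ← e2]
        exact h1
  obtain ⟨A, h1, h2⟩ := key
  refine ⟨A, h1, oddL_ps A, oddL_par A, fun hpp => ?_⟩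
  obtain ⟨_, M, r, _, hM⟩ := isPP_iff.1 hpp
  obtain ⟨k, hk⟩ := he (M, r)
  have := h2 k
  rw [hk] at this
  exact this hM

end Pool.Agent.H20NE
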