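import Pool.Agent.H20NE.PS2
import Pool.Agent.H20NC.Dec
import Pool.Agent.H20RD.AeSparse
import Pool.Agent.H20RD.EasyPP
import Pool.Agent.H20RD.Tag

/-!
# An oracle such that `PSPACE ⊆ PP` relative to all oracles at polynomial distance from it
-/

set_option autoImplicit false

namespace Pool.Agent.H20NE

open Filter Finset Pool.Agent.NPC Pool.Agent.H622R2 Pool.Agent.H620R2.Gauge
open Pool.Agent.W900.CH (Close)
open Pool.Agent.H20NC (Ph cl cl_inj pr ph_last ph_other isFP_ask isFP_trans decode)
open Pool.Agent.H20RD (Orc IsPP exc dft short mem_short sparse_pp poly_take poly_drop poly_and)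

/-- a third of the length -/
def ln (x : List Bool) : ℕ := (x.length - 1) / 3
/-- the string of the cell -/
def uu (x : List Bool) : List Bool := x.tail.take (ln x)
/-- the number of the copy -/
def rr (x : List Bool) : List Bool := (x.tail.drop (ln x)).take (ln x)

/-- `x` is the last string of a cell -/
def cnd (x : List Bool) : Bool :=
  decide (x = true :: (uu x ++ (rr x ++ List.replicate (ln x) true))) &&
    decide ((rr x).length = (uu x).length ∧ (uu x).length = ln x)

section
variable {α : Type} [TEnc α]

theorem poly_ln {f : α → List Bool} (hf : Poly f) : Poly fun a => ln (f a) :=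
  Poly.div (Poly.sub (UPoly.length hf).toPoly (NPC.Poly.const 1)) (NPC.Poly.const 3)

theorem upoly_ln {f : α → List Bool} (hf : Poly f) : UPoly fun a => ln (f a) :=
  UPoly.of_le (poly_ln hf) (UPoly.length hf) fun a => by unfold ln; omega

theorem poly_uu {f : α → List Bool} (hf : Poly f) : Poly fun a => uu (f a) :=
  poly_take (Poly.tail hf) (poly_ln hf)

theorem poly_rr {f : α → List Bool} (hf : Poly f) : Poly fun a => rr (f a) :=
  poly_take (poly_drop (Poly.tail hf) (poly_ln hf)) (poly_ln hf)

theorem poly_cnd {f : α → List Bool} (hf : Poly f) : Poly fun a => cnd (f a) := by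
  refine poly_and (Poly.decide_eq hf (Poly.cons (NPC.Poly.const true) (Poly.append (poly_uu hf)
    (Poly.append (poly_rr hf) (Pool.Agent.H20RD.poly_rep true (upoly_ln hf)))))) ?_
  refine (poly_and (Poly.decide_eq (Poly.length (poly_rr hf)) (Poly.length (poly_uu hf)))
    (Poly.decide_eq (Poly.length (poly_uu hf)) (poly_ln hf))).congr fun a => ?_
  rw [Bool.decide_and]

end

theorem pr_false (n : ℕ) : pr (fun _ => false) n = false := by
  induction n with
  | zero => rfl
  | succ n ih =>
    unfold pr
    rw [ih]
    rfl

/-- the oracle with hidden values `I`, without random bits -/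
theorem ph_zero (I : Orc) (x : List Bool) : Ph I (fun _ => false) x = (cnd x && I (uu x)) := by
  by_cases hx : ∃ p : List Bool × List Bool, p.2.length = p.1.length ∧ x = cl p.1 p.2 p.1.length
  · obtain ⟨⟨u, r⟩, h1, rfl⟩ := hx
    dsimp only at h1 ⊢
    rw [ph_last I _ h1, pr_false, Bool.xor_false]
    have e0 : cl u r u.length = true :: (u ++ (r ++ List.replicate u.length true)) := by
      unfold cl
      simp
    have e1 : ln (cl u r u.length) = u.length := by
      unfold ln
      rw [e0]
      simp only [List.length_cons, List.length_append, List.length_replicate]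
      omega
    have e2 : uu (cl u r u.length) = u := by
      unfold uu
      rw [e1, e0, List.tail_cons, List.take_left']
      rfl
    have e3 : rr (cl u r u.length) = r := by
      unfold rr
      rw [e1, e0, List.tail_cons, List.drop_left', List.take_left']
      · exact h1
      · rfl
    have e4 : cnd (cl u r u.length) = true := by
      unfold cnd
      rw [e1, e2, e3, e0]
      simp [h1]
    rw [e4, e2, Bool.true_and]
  · rw [ph_other I _ hx]
    have : cnd x = false := by
      rw [Bool.eq_false_iff]
      intro h
      apply hx
      unfold cnd at h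
      rw [Bool.and_eq_true, decide_eq_true_eq, decide_eq_true_eq] at h
      obtain ⟨h1, h2, h3⟩ := h
      refine ⟨(uu x, rr x), h2, ?_⟩
      dsimp only
      unfold cl
      rw [h3, Nat.sub_self, List.replicate_zero, List.append_nil]
      exact h1
    rw [this, Bool.false_and]

/-- the set of the changes, shifted -/
def sh (A B : Oracle) : Oracle := fun y => y.getD 0 false && Bool.xor (A y.tail) (B y.tail)

theorem dft_sh (A B : Oracle) (z : List Bool) : dft (sh A B) z = false := by
  unfold dft sh
  cases z with
  | nil => rfl
  | cons c z => simp [List.replicate_succ]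

theorem card_exc {A B : Oracle} (n : ℕ) :
    (exc (sh A B) n).card ≤ Pool.Agent.W900.CH.dist B A n := by
  classical
  unfold Pool.Agent.W900.CH.dist
  rw [← Set.ncard_coe_finset]
  refine Set.ncard_le_ncard_of_injOn List.tail ?_ ?_ (Pool.Agent.W900.CH.finite_diff _ _ _)
  · intro y hy
    rw [Finset.mem_coe] at hy
    unfold exc at hy
    rw [mem_filter, mem_short, dft_sh] at hy
    obtain ⟨h1, h2⟩ := hy
    unfold sh at h2
    have h3 : Bool.xor (A y.tail) (B y.tail) = true := by
      cases h : Bool.xor (A y.tail) (B y.tail) with
      | true => rfl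
      | false =>
        rw [h, Bool.and_false] at h2
        exact absurd rfl h2
    refine ⟨?_, fun h4 => ?_⟩
    · rw [List.length_tail]
      omega
    · rw [h4] at h3
      simp at h3
  · intro y hy y' hy' h
    rw [Finset.mem_coe] at hy hy'
    have key : ∀ y ∈ exc (sh A B) n, ∃ z, y = true :: z := by
      intro y hy
      unfold exc at hy
      rw [mem_filter, dft_sh] at hy
      have h2 := hy.2
      unfold sh at h2
      rcases y with _ | ⟨c, z⟩
      · simp at h2
      · cases c with
        | true => exact ⟨z, rfl⟩
        | false => simp at h2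
    obtain ⟨z, rfl⟩ := key y hy
    obtain ⟨z', rfl⟩ := key y' hy'
    rw [List.tail_cons, List.tail_cons] at h
    rw [h]

/-- **The robust oracle.** -/
theorem robust_pp : ∃ O : Oracle, ∀ (A : Oracle) (c : ℕ), Close (fun n => (n : ℝ) ^ c) O A →
    ∀ L : Set (List Bool), IsPSPACE A L → IsPP A L := by
  classical
  obtain ⟨I, hI⟩ := sparse_pp
  refine ⟨Ph I fun _ => false, fun A c hclose L hL => ?_⟩
  set B := Ph I fun _ => false with hB
  obtain ⟨n₁, hn₁⟩ := eventually_atTop.1 hclose
  set c₀ := Pool.Agent.W900.CH.dist B A n₁ with hc₀
  have hdist : ∀ n, Pool.Agent.W900.CH.dist B A n ≤ n ^ c + c₀ := by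
    intro n
    rcases le_total n₁ n with h1 | h1
    · have h2 : (Pool.Agent.W900.CH.dist B A n : ℝ) ≤ (n : ℝ) ^ c := hn₁ n h1
      have h3 : Pool.Agent.W900.CH.dist B A n ≤ n ^ c := by exact_mod_cast h2
      omega
    · have h2 := Pool.Agent.W900.CH.dist_mono B A h1
      omega
  have hdec : IsFP A (fun u => [I u]) := decode hdist
  set C : Oracle := Pool.Agent.H20RD.join I (sh A B) with hC
  -- the first transfer
  have h1 : IsPSPACE C L := by
    have hH : Poly fun q : List Bool × Bool × Bool => Bool.xor q.2.2 (cnd q.1 && q.2.1) := by
      have ha := poly_and (poly_cnd (Poly.fst (Poly.id (α := List Bool × Bool × Bool))))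
        (Poly.fst (Poly.snd Poly.id))
      refine (Poly.cond ha (Poly.not (Poly.snd (Poly.snd Poly.id)))
        (Poly.snd (Poly.snd Poly.id))).congr fun q => ?_
      cases cnd q.1 && q.2.1 <;> cases q.2.2 <;> rfl
    refine pspace_tt2 (q₁ := fun y => false :: uu y) (q₂ := fun y => true :: true :: y)
      (H := fun q => Bool.xor q.2.2 (cnd q.1 && q.2.1))
      (Poly.cons (NPC.Poly.const _) (poly_uu Poly.id))
      (Poly.cons (NPC.Poly.const _) (Poly.cons (NPC.Poly.const _) Poly.id)) hH ?_
    have e : (fun y => Bool.xor (C (true :: true :: y)) (cnd y && C (false :: uu y))) = A := by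
      funext y
      have e1 : C (true :: true :: y) = Bool.xor (A y) (B y) := rfl
      have e2 : C (false :: uu y) = I (uu y) := rfl
      rw [e1, e2, ← ph_zero]
      show Bool.xor (Bool.xor (A y) (B y)) (B y) = A y
      cases A y <;> cases B y <;> rfl
    simp only
    rw [e]
    exact hL
  -- `PSPACE` in `PP`
  have h2 : IsPP C L := hI (sh A B) ⟨Polynomial.X ^ c + Polynomial.C c₀, fun n => by
    refine (card_exc n).trans ((hdist n).trans (le_of_eq ?_))
    simp⟩ L h1
  -- the second transfer
  have hCf : IsFP A (fun y => [C y]) := by
    have hF : IsFP A (fun y => [I (if y.getD 0 false then uu y.tail.tail else y.tail)]) := by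
      refine hdec.precomp (g := fun y => if y.getD 0 false then uu y.tail.tail else y.tail) ?_
      refine (Poly.cond (Poly.getD (d := fun _ => false) Poly.id (NPC.Poly.const 0)
        (NPC.Poly.const false)) (poly_uu (Poly.tail (Poly.tail Poly.id)))
        (Poly.tail Poly.id)).congr fun y => ?_
      cases y.getD 0 false <;> rfl
    have h := IsFP.seq hF (isFP_ask A) (φ := fun p => p.1.tail.tail)
      (ψ := fun p => if p.1 = [] then [false] else if p.1.getD 0 false then
        [p.1.tail.getD 0 false && (if cnd p.1.tail.tail && p.2.1.getD 0 false then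
          !(p.2.2.getD 0 false) else p.2.2.getD 0 false)] else p.2.1)
      (Poly.tail (Poly.tail (Poly.fst Poly.id))) (by
        have h1 : Poly fun p : List Bool × List Bool × List Bool => p.1 := Poly.fst Poly.id
        have h21 : Poly fun p : List Bool × List Bool × List Bool => p.2.1.getD 0 false :=
          Poly.getD (d := fun _ => false) (Poly.fst (Poly.snd Poly.id)) (NPC.Poly.const 0)
            (NPC.Poly.const false)
        have h22 : Poly fun p : List Bool × List Bool × List Bool => p.2.2.getD 0 false :=
          Poly.getD (d := fun _ => false) (Poly.snd (Poly.snd Poly.id)) (NPC.Poly.const 0)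
            (NPC.Poly.const false)
        have hc := poly_and (poly_cnd (Poly.tail (Poly.tail h1))) h21
        have hx : Poly fun p : List Bool × List Bool × List Bool =>
            (if cnd p.1.tail.tail && p.2.1.getD 0 false then !(p.2.2.getD 0 false) else
              p.2.2.getD 0 false) :=
          (Poly.cond hc (Poly.not h22) h22).congr fun p => by
            cases cnd p.1.tail.tail && p.2.1.getD 0 false <;> rfl
        have h10 : Poly fun p : List Bool × List Bool × List Bool => p.1.getD 0 false :=
          Poly.getD (d := fun _ => false) h1 (NPC.Poly.const 0) (NPC.Poly.const false)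
        have hy : Poly fun p : List Bool × List Bool × List Bool =>
            [p.1.tail.getD 0 false && (if cnd p.1.tail.tail && p.2.1.getD 0 false then
              !(p.2.2.getD 0 false) else p.2.2.getD 0 false)] :=
          Poly.cons (poly_and (Poly.getD (d := fun _ => false) (Poly.tail h1) (NPC.Poly.const 0)
            (NPC.Poly.const false)) hx) (NPC.Poly.const [])
        refine Poly.ite (Poly.decide_eq h1 (NPC.Poly.const [])) (NPC.Poly.const _) ?_
        exact (Poly.cond h10 hy (Poly.fst (Poly.snd Poly.id))).congr fun p => by
          cases p.1.getD 0 false <;> rfl)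
    refine (congrArg (IsFP A) (funext fun y => ?_)).mp h
    rcases y with _ | ⟨b, y⟩
    · rfl
    · cases b with
      | false => rfl
      | true =>
        show [y.getD 0 false && (if cnd y.tail && I (uu y.tail) then !(A y.tail) else A y.tail)] =
          [y.getD 0 false && Bool.xor (A y.tail) (B y.tail)]
        rw [hB, ph_zero]
        cases cnd y.tail && I (uu y.tail) <;> cases A y.tail <;> rfl
  obtain ⟨V, p, hV, hx⟩ := h2
  refine ⟨V, p, isFP_trans hCf ?_, hx⟩
  refine Pool.Agent.H20RD.IsFP.of_map (g := fun y => true :: y)
    (Poly.cons (NPC.Poly.const true) Poly.id) ?_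
  exact hV

end Pool.Agent.H20NE
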