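import Pool.Agent.H20NE.Near2
import Pool.Agent.H20NE.Near3
import Pool.Agent.H20NE.Rob

/-!
# The exact numbers of changes for the inclusions `NP ∪ coNP ⊆ PP ⊆ PSPACE`
-/

set_option autoImplicit false

namespace Pool.Agent.H20NE

open Filter Pool.Agent.NPC Pool.Agent.H622R2 Pool.Agent.H620R2.Gauge
open Pool.Agent.W900.CH (Close finite_diff dist_mono)
open Pool.Agent.W900.RB (Super pclose_of_not_super)
open Pool.Agent.H20NC (isFP_trans)
open Pool.Agent.H20RD (IsPP IsQMA IsParityP exists_oracle_pp)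

/-- finitely many changes do not matter -/
theorem isFP_fin {A D : Oracle} (h : {x | A x ≠ D x}.Finite) {V : List Bool → List Bool}
    (hV : IsFP D V) : IsFP A V := by
  classical
  have hD : IsFP A (fun y => [D y]) := by
    set F : List (List Bool) := h.toFinset.toList with hF
    have hm : ∀ y, y ∈ F ↔ A y ≠ D y := by
      intro y
      rw [hF, Finset.mem_toList, Set.Finite.mem_toFinset]
      rfl
    have h1 := IsFP.tt (A := A) (Q := fun y => [y])
      (H := fun p => if decide (p.1 ∈ F) then [!(p.2.getD 0 false)] else [p.2.getD 0 false])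
      (Poly.cons Poly.id (NPC.Poly.const [])) (by
        have hg : Poly fun p : List Bool × List Bool => p.2.getD 0 false :=
          Poly.getD (d := fun _ => false) (Poly.snd Poly.id) (NPC.Poly.const 0)
            (NPC.Poly.const false)
        have hd : Poly fun p : List Bool × List Bool => decide (p.1 ∈ F) :=
          (NPC.Poly.decide_mem (Poly.fst Poly.id) (NPC.Poly.const F)).congr fun p => by congr
        exact (Poly.cond hd (Poly.cons (Poly.not hg) (NPC.Poly.const []))
          (Poly.cons hg (NPC.Poly.const []))).congr fun p => by cases decide (p.1 ∈ F) <;> rfl)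
    refine (congrArg (IsFP A) (funext fun y => ?_)).mp h1
    by_cases hy : y ∈ F
    · have h2 := (hm y).1 hy
      simp only [hy, decide_true, if_true]
      show [!(A y)] = [D y]
      revert h2
      cases A y <;> cases D y <;> simp
    · have h2 : A y = D y := by
        by_contra hc
        exact hy ((hm y).2 hc)
      simp only [hy, decide_false, Bool.false_eq_true, if_false]
      rw [← h2]
      rfl
  refine isFP_trans hD (Pool.Agent.H20RD.IsFP.of_map (g := fun y => true :: y)
    (Poly.cons (NPC.Poly.const true) Poly.id) ?_)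
  exact hV

theorem finite_of_close {g : ℕ → ℝ} (hg : ¬ Tendsto g atTop atTop) {O A : Oracle}
    (h : Close g O A) : {x | A x ≠ O x}.Finite := by
  classical
  rw [tendsto_atTop] at hg
  push Not at hg
  obtain ⟨K, hK⟩ := hg
  obtain ⟨k, hk⟩ := exists_nat_ge K
  have hb : ∀ n, Pool.Agent.W900.CH.dist O A n ≤ k := by
    intro n
    obtain ⟨m, hm1, hm2, hm3⟩ := (hK.and_eventually (h.and (eventually_ge_atTop n))).exists
    have h1 := dist_mono O A hm3
    have h2 : (Pool.Agent.W900.CH.dist O A m : ℝ) ≤ k := by linarith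
    have h3 : Pool.Agent.W900.CH.dist O A m ≤ k := by exact_mod_cast h2
    omega
  by_contra hinf
  obtain ⟨t, ht1, ht2⟩ := (Set.not_finite.1 hinf).exists_subset_card_eq (k + 1)
  have h1 := hb (t.sup List.length)
  unfold Pool.Agent.W900.CH.dist at h1
  have h2 : (t : Set (List Bool)).ncard ≤ Set.ncard {x : List Bool | x.length ≤ t.sup List.length ∧
      A x ≠ O x} :=
    Set.ncard_le_ncard (fun x hx => ⟨Finset.le_sup (f := List.length) hx, ht1 hx⟩)
      (finite_diff _ _ _)
  rw [Set.ncard_coe_finset, ht2] at h2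
  omega

theorem final :
    ((∀ g : ℕ → ℝ, Tendsto g atTop atTop → ∀ O : Oracle, ∃ A : Oracle, Close g O A ∧
        ∃ L : Set (List Bool), IsPP A L ∧ ¬ IsNP A L ∧ ¬ IsNP A Lᶜ ∧ ¬ IsQMA A L ∧
          ¬ IsQMA A Lᶜ) ∧
      ∃ O : Oracle, ∀ g : ℕ → ℝ, ¬ Tendsto g atTop atTop → ∀ A : Oracle, Close g O A →
        ∀ L : Set (List Bool), IsPP A L → IsP A L) ∧
    ((∀ g : ℕ → ℝ, Super g → ∀ O : Oracle, ∃ A : Oracle, Close g O A ∧
        ∃ L : Set (List Bool), IsPSPACE A L ∧ IsParityP A L ∧ ¬ IsPP A L) ∧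
      ∃ O : Oracle, ∀ g : ℕ → ℝ, ¬ Super g → ∀ A : Oracle, Close g O A →
        ∀ L : Set (List Bool), IsPSPACE A L → IsPP A L) := by
  refine ⟨⟨fun g hg O => ?_, ?_⟩, fun g hg O => ?_, ?_⟩
  · obtain ⟨A, h1, _, _, _, _, h2, h3, h4, h5, h6⟩ := near_all hg O
    exact ⟨A, h1, _, h2, h3, h4, h5, h6⟩
  · obtain ⟨O, _, hO⟩ := exists_oracle_pp
    refine ⟨Pool.Agent.H20RD.join O fun z => (fun _ : ℕ => false) z.length,
      fun g hg A hA L hL => ?_⟩
    have hfin := finite_of_close hg hA
    obtain ⟨V, p, hV, h⟩ := hL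
    obtain ⟨V', hV', h'⟩ := hO (fun _ => false) L ⟨V, p, isFP_fin (by
      simpa only [ne_comm] using hfin) hV, h⟩
    exact ⟨V', isFP_fin hfin hV', h'⟩
  · obtain ⟨A, h1, h2, h3, h4⟩ := near_parity hg O
    exact ⟨A, h1, _, h2, h3, h4⟩
  · obtain ⟨O, hO⟩ := robust_pp
    refine ⟨O, fun g hg A hA L hL => ?_⟩
    obtain ⟨c, hc⟩ := pclose_of_not_super hg
    refine hO A c ?_ L hL
    filter_upwards [hc O A hA] with n hn
    exact_mod_cast hn

end Pool.Agent.H20NE
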