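import Pool.Agent.H20NE.Cov
import Pool.Agent.H20NC.Stg
import Pool.Agent.H20RD.HardPP

/-!
# Any unbounded number of changes of an arbitrary oracle
-/

set_option autoImplicit false

namespace Pool.Agent.H20NE

open Filter Finset Pool.Agent.NPC Pool.Agent.H620R2.Gauge Pool.Agent.H9x.Q
open Pool.Agent.W900.CH (Close)
open Pool.Agent.H20RD (Kind strs mem_strs card_strs poly_exp kind_np kind_qma kind_bqp tagL
  true_mem_tagL false_mem_tagL isPP_tag IsPP IsQMA Witness probW)

/-- some pattern does not occur -/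
theorem absent (A : Oracle) {j s : ℕ} (h : 1 ≤ j * s) : ∃ c : List Bool, c.length = j * s ∧
    inp (j * 2 ^ s) (tl j s) c ∉ LS A := by
  classical
  set P := j * 2 ^ s with hP
  set G : List Bool → List Bool := fun z => (List.range (j * s)).map fun r =>
    chk P (fun p => (tl j s).getD (r * P + p) false) (fun p => A (ad P z p)) with hG
  have h1 : ((strs (j * s - 1)).image G).card < (strs (j * s)).card := by
    refine card_image_le.trans_lt ?_
    rw [card_strs, card_strs]
    exact Nat.pow_lt_pow_right (by norm_num) (by omega)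
  obtain ⟨c, hc1, hc2⟩ := exists_mem_notMem_of_card_lt_card h1
  rw [mem_strs] at hc1
  refine ⟨c, hc1, ?_⟩
  rintro ⟨z, h2, h3⟩
  rw [vc_inp, nP_inp, tb_inp] at *
  apply hc2
  refine mem_image.2 ⟨z, mem_strs.2 (by omega), ?_⟩
  rw [hG]
  refine List.ext_getElem (by simp [hc1]) fun r h4 h5 => ?_
  simp only [List.getElem_map, List.getElem_range]
  rw [h3 r h5, List.getD_eq_getElem _ _ h5]

/-- the changed oracle -/
noncomputable def chg (A : Oracle) (P : ℕ) (z : List Bool) (D : Finset ℕ) : Oracle :=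
  open Classical in fun y => Bool.xor (A y) (decide (∃ p ∈ D, y = ad P z p))

theorem chg_ad (A : Oracle) {P : ℕ} {z : List Bool} (D : Finset ℕ) (p : ℕ) :
    chg A P z D (ad P z p) = Bool.xor (A (ad P z p)) (decide (p ∈ D)) := by
  unfold chg
  congr 1
  rw [decide_eq_decide]
  constructor
  · rintro ⟨p', h1, h2⟩
    rw [(ad_inj rfl h2).2]
    exact h1
  · intro h
    exact ⟨p, h, rfl⟩

theorem chg_ne {A : Oracle} {P : ℕ} {z : List Bool} {D : Finset ℕ} {y : List Bool}
    (h : chg A P z D y ≠ A y) : ∃ p ∈ D, y = ad P z p := by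
  by_contra hc
  apply h
  unfold chg
  rw [decide_eq_false hc, Bool.xor_false]

/-- planting a pattern in a cell -/
theorem plant (A : Oracle) {j s : ℕ} {z c : List Bool} (hc : c.length = j * s)
    (hz : z.length + 1 = j * s) : ∃ D : Finset ℕ, D ⊆ range (j * 2 ^ s) ∧ D.card ≤ j ∧
      inp (j * 2 ^ s) (tl j s) c ∈ LS (chg A (j * 2 ^ s) z D) := by
  obtain ⟨D, h1, h2, h3⟩ := cover j s (fun p => A (ad (j * 2 ^ s) z p)) (fun r => c.getD r false)
  refine ⟨D, h1, h2, z, by rw [vc_inp]; omega, fun r hr => ?_⟩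
  rw [vc_inp] at hr
  rw [nP_inp, tb_inp, vc_inp, ← h3 r (by omega)]
  refine chk_congr fun p hp => ?_
  rw [chg_ad]

/-- membership depends on short strings only -/
theorem LS_congr {A A' : Oracle} {P : ℕ} {t c : List Bool} (h : ∀ y : List Bool,
    y.length < P + c.length → A y = A' y) : inp P t c ∈ LS A ↔ inp P t c ∈ LS A' := by
  have key : ∀ A A' : Oracle, (∀ y : List Bool, y.length < P + c.length → A y = A' y) →
      inp P t c ∈ LS A → inp P t c ∈ LS A' := by
    rintro A A' h ⟨z, h1, h2⟩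
    refine ⟨z, h1, fun r hr => ?_⟩
    rw [← h2 r hr]
    rw [nP_inp, vc_inp] at *
    refine chk_congr fun p hp => ?_
    rw [h _ (by rw [length_ad hp.le]; omega)]
  exact ⟨key A A' h, key A' A fun y hy => (h y hy).symm⟩

theorem eval_mono' (p : Polynomial ℕ) {a b : ℕ} (h : a ≤ b) : p.eval a ≤ p.eval b := by
  rw [Polynomial.eval_eq_sum_range, Polynomial.eval_eq_sum_range]
  exact Finset.sum_le_sum fun i _ => Nat.mul_le_mul_left _ (Nat.pow_le_pow_left h i)

/-- the numbers -/
theorem nums (r : Polynomial ℕ) : ∃ j : ℕ, 1 ≤ j ∧ ∀ s, j + 1 ≤ s →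
    r.eval (inp (j * 2 ^ s) (tl j s) (List.replicate (j * s) false)).length <
      2 ^ (j * s - 1) := by
  obtain ⟨C, hC⟩ := poly_exp r
  refine ⟨8 * C + 2, by omega, fun s hs => ?_⟩
  set j := 8 * C + 2 with hj
  have h1 : s < 2 ^ s := Nat.lt_two_pow_self
  have h2 : j < 2 ^ s := by omega
  have h3 : (inp (j * 2 ^ s) (tl j s) (List.replicate (j * s) false)).length ≤ 2 ^ (4 * s + 3) := by
    rw [length_inp, length_tl, List.length_replicate]
    set X := 2 ^ s with hX
    have e1 : 2 ^ (4 * s + 3) = 8 * (X * X * (X * X)) := by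
      rw [hX]
      ring
    rw [e1]
    have h4 : j * s ≤ X * X := Nat.mul_le_mul h2.le h1.le
    have h5 : j * X ≤ X * X := Nat.mul_le_mul_right _ h2.le
    have h6 : (j * s) * (j * X) ≤ X * X * (X * X) := Nat.mul_le_mul h4 h5
    have h7 : 1 ≤ X := Nat.one_le_two_pow
    have h8 : X * X ≤ X * X * (X * X) := Nat.le_mul_of_pos_right _ (Nat.mul_pos h7 h7)
    have h9 : 1 ≤ X * X := Nat.mul_pos h7 h7
    nlinarith
  have h4 := hC _ _ h3
  refine h4.trans_lt (Nat.pow_lt_pow_right (by norm_num) ?_)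
  have e2 : j * s = 8 * (C * s) + 2 * s := by rw [hj]; ring
  have e3 : C * (4 * s + 3 + 1) = 4 * (C * s) + 4 * C := by ring
  have h5 : C ≤ C * s := Nat.le_mul_of_pos_right _ (by omega)
  omega

/-- **Any unbounded number of changes makes countably many machines fail.** -/
theorem near_kind {ι : Type} [Countable ι] {Ok : ι → Oracle → List Bool → Prop → Prop}
    (hK : Kind ι Ok) {g : ℕ → ℝ} (hg : Tendsto g atTop atTop) (O : Oracle) :
    ∃ A : Oracle, Close g O A ∧ ∀ i, ¬ ∀ x, Ok i A x (x ∈ LS A) := by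
  classical
  rcases isEmpty_or_nonempty ι with hι | hι
  · refine ⟨O, ?_, fun i => (hι.false i).elim⟩
    filter_upwards [hg.eventually_ge_atTop 0] with n hn
    have : Pool.Agent.W900.CH.dist O O n = 0 := by
      unfold Pool.Agent.W900.CH.dist
      simp
    rw [this]
    exact_mod_cast hn
  obtain ⟨e, he⟩ := exists_surjective_nat ι
  have key : ∃ A : Oracle, Close g O A ∧ ∀ k, ¬ ∀ x, Ok (e k) A x (x ∈ LS A) := by
    refine Pool.Agent.H20NC.stages2 O (fun k A => ¬ ∀ x, Ok (e k) A x (x ∈ LS A)) ?_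
    intro k N T
    obtain ⟨Bd, hBd⟩ := hK.loc (e k)
    obtain ⟨r, hr⟩ := hK.few (e k)
    obtain ⟨j, hj1, hj⟩ := nums r
    obtain ⟨n₀, hn₀⟩ := eventually_atTop.1 (hg.eventually_ge_atTop ((T + j : ℕ) : ℝ))
    obtain ⟨s, hs⟩ : ∃ s, s = N + n₀ + j + 1 := ⟨_, rfl⟩
    have hs2 : s < 2 ^ s := Nat.lt_two_pow_self
    set P := j * 2 ^ s with hP
    have hP1 : s < P := lt_of_lt_of_le hs2 (Nat.le_mul_of_pos_left _ hj1)
    have hjs : 1 ≤ j * s := Nat.mul_pos hj1 (by omega)
    set n := j * s - 1 + P with hn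
    set ℓ := (inp P (tl j s) (List.replicate (j * s) false)).length with hℓ
    refine ⟨n, j, max (n + 1) (Bd.eval ℓ + 1), by omega, fun m hm => hn₀ m (by omega),
      fun B _ => ?_⟩
    obtain ⟨c, hc1, hc2⟩ := absent B (j := j) (s := s) hjs
    have hxl : (inp P (tl j s) c).length = ℓ := by
      rw [hℓ, length_inp, length_inp, hc1, List.length_replicate]
    set x := inp P (tl j s) c with hx
    -- the final step
    have hfin : ∀ B' : Oracle, ¬ Ok (e k) B' x (x ∈ LS B') → ∀ B'' : Oracle,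
        (∀ y : List Bool, y.length < max (n + 1) (Bd.eval ℓ + 1) → B'' y = B' y) →
        ¬ ∀ x, Ok (e k) B'' x (x ∈ LS B'') := by
      intro B' h1 B'' h2 h3
      apply h1
      have h4 : x ∈ LS B'' ↔ x ∈ LS B' :=
        LS_congr fun y hy => h2 y (lt_of_lt_of_le hy ((by omega : P + c.length ≤ n + 1).trans
          (le_max_left _ _)))
      have h5 := hBd x B'' B' (fun y hy => h2 y (lt_of_lt_of_le (Nat.lt_succ_of_le (by
        rw [hxl] at hy
        exact hy)) (le_max_right _ _))) _ (h3 x)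
      rwa [h4] at h5
    by_cases hok : Ok (e k) B x False
    · -- plant the pattern
      have hD : ∀ z : List Bool, z.length = j * s - 1 → ∃ D : Finset ℕ,
          D ⊆ range P ∧ D.card ≤ j ∧ x ∈ LS (chg B P z D) := fun z hz =>
        plant B hc1 (by omega)
      choose! D hD1 hD2 hD3 using hD
      obtain ⟨z, hz1, hz2⟩ : ∃ z : List Bool, z.length = j * s - 1 ∧
          ¬ Ok (e k) (chg B P z (D z)) x True := by
        by_contra hcon
        push Not at hcon
        have h1 := hr x B hok (strs (j * s - 1)) (fun z => chg B P z (D z)) ?_ ?_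
        · rw [card_strs, hxl] at h1
          have h2 : r.eval ℓ < 2 ^ (j * s - 1) := hj s (by omega)
          omega
        · intro z hz z' hz' y h1 h2
          obtain ⟨p, _, hp⟩ := chg_ne h1
          obtain ⟨p', _, hp'⟩ := chg_ne h2
          rw [mem_strs] at hz hz'
          exact (ad_inj (hz.trans hz'.symm) (hp.symm.trans hp')).1
        · intro z hz
          exact hcon z (mem_strs.1 hz)
      refine ⟨chg B P z (D z), ?_, ?_, hfin _ ?_⟩
      · intro y hy
        obtain ⟨p, hp1, rfl⟩ := chg_ne hy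
        have h1 := mem_range.1 (hD1 z hz1 hp1)
        rw [length_ad h1.le, hz1]
        exact ⟨le_rfl, lt_of_lt_of_le (Nat.lt_succ_self _) (le_max_left _ _)⟩
      · have h1 : {y | B y ≠ chg B P z (D z) y} ⊆ ((D z).image (ad P z) : Finset _) := by
          intro y hy
          obtain ⟨p, hp1, rfl⟩ := chg_ne (Ne.symm hy)
          rw [Finset.mem_coe]
          exact mem_image_of_mem _ hp1
        refine (Set.ncard_le_ncard h1 (Finset.finite_toSet _)).trans ?_
        rw [Set.ncard_coe_finset]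
        exact card_image_le.trans (hD2 z hz1)
      · rwa [show (x ∈ LS (chg B P z (D z))) = True from eq_true (hD3 z hz1)]
    · -- nothing to do
      refine ⟨B, fun y hy => absurd rfl hy, ?_, hfin B ?_⟩
      · have : {y | B y ≠ B y} = ∅ := by ext; simp
        rw [this, Set.ncard_empty]
        exact Nat.zero_le _
      · rwa [show (x ∈ LS B) = False from eq_false hc2]
  obtain ⟨A, h1, h2⟩ := key
  refine ⟨A, h1, fun i => ?_⟩
  obtain ⟨k, rfl⟩ := he i
  exact h2 k

end Pool.Agent.H20NE
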