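import Pool.Agent.H20NE.Near1

/-!
# Any unbounded number of changes separates the classes
-/

set_option autoImplicit false

namespace Pool.Agent.H20NE

open Filter Finset Pool.Agent.NPC Pool.Agent.H620R2.Gauge Pool.Agent.H9x.Q
open Pool.Agent.W900.CH (Close)
open Pool.Agent.H20RD (Kind strs mem_strs card_strs poly_exp kind_np kind_qma kind_bqp tagL
  true_mem_tagL false_mem_tagL isPP_tag IsPP IsQMA Witness probW)

theorem kind_sum {ι ι' : Type} {Ok : ι → Oracle → List Bool → Prop → Prop}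
    {Ok' : ι' → Oracle → List Bool → Prop → Prop} (h : Kind ι Ok) (h' : Kind ι' Ok') :
    Kind (ι ⊕ ι') (fun i => Sum.elim Ok Ok' i) := by
  constructor
  · rintro (i | i)
    · exact h.loc i
    · exact h'.loc i
  · rintro (i | i)
    · exact h.few i
    · exact h'.few i

theorem kind_tag {ι : Type} {Ok : ι → Oracle → List Bool → Prop → Prop} (h : Kind ι Ok)
    (c : Bool) : Kind ι (fun i A x b => Ok i A (c :: x) b) := by
  constructor
  · intro i
    obtain ⟨B, hB⟩ := h.loc i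
    refine ⟨B.comp (Polynomial.X + 1), fun x A A' hA b hb => hB (c :: x) A A' (fun y hy => ?_) b hb⟩
    apply hA
    simpa using hy
  · intro i
    obtain ⟨r, hr⟩ := h.few i
    refine ⟨r.comp (Polynomial.X + 1), fun x A hA P F h1 h2 => ?_⟩
    have := hr (c :: x) A hA P F h1 h2
    simpa using this

theorem near_all {g : ℕ → ℝ} (hg : Tendsto g atTop atTop) (O : Oracle) :
    ∃ A : Oracle, Close g O A ∧ IsNP A (LS A) ∧ ¬ IsBQP A (LS A) ∧ ¬ IsNP A (LS A)ᶜ ∧
      ¬ IsQMA A (LS A)ᶜ ∧ IsPP A (tagL (LS A)) ∧ ¬ IsNP A (tagL (LS A)) ∧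
      ¬ IsNP A (tagL (LS A))ᶜ ∧ ¬ IsQMA A (tagL (LS A)) ∧ ¬ IsQMA A (tagL (LS A))ᶜ := by
  have : Countable QFamily := QFamily.countable
  have : Countable (Polynomial ℕ) := CC.poly_countable
  have : Countable Alg := Alg.countable
  obtain ⟨A, h1, h2⟩ := near_kind (kind_sum kind_bqp (kind_sum (kind_sum kind_np kind_qma)
    (kind_sum (kind_sum (kind_tag kind_np true) (kind_tag kind_np false))
      (kind_sum (kind_tag kind_qma true) (kind_tag kind_qma false))))) hg O
  refine ⟨A, h1, isNP_LS A, ?_, ?_, ?_, isPP_tag (isNP_LS A), ?_, ?_, ?_, ?_⟩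
  · rintro ⟨F, hF⟩
    exact h2 (Sum.inl F) hF
  · rintro ⟨V, q, ⟨M, hM⟩, hV⟩
    refine h2 (Sum.inr (Sum.inl (Sum.inl (M, q)))) fun x => ?_
    show ¬ x ∈ LS A ↔ ∃ v : List Bool, v.length ≤ q.eval x.length ∧
      M.out A (pairBits v x) = some [true]
    have h5 := hV x
    rw [Set.mem_compl_iff] at h5
    rw [h5]
    simp only [hM, Option.some.injEq]
  · rintro ⟨F, k, hF⟩
    refine h2 (Sum.inr (Sum.inl (Sum.inr (F, k)))) fun x => ?_
    have h5 := hF x
    rw [Set.mem_compl_iff, not_not] at h5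
    exact h5
  · rintro ⟨V, q, ⟨M, hM⟩, hV⟩
    refine h2 (Sum.inr (Sum.inr (Sum.inl (Sum.inl (M, q))))) fun x => ?_
    show ¬ x ∈ LS A ↔ ∃ v : List Bool, v.length ≤ q.eval (true :: x).length ∧
      M.out A (pairBits v (true :: x)) = some [true]
    have h5 := hV (true :: x)
    rw [true_mem_tagL] at h5
    rw [h5]
    simp only [hM, Option.some.injEq]
  · rintro ⟨V, q, ⟨M, hM⟩, hV⟩
    refine h2 (Sum.inr (Sum.inr (Sum.inl (Sum.inr (M, q))))) fun x => ?_
    show ¬ x ∈ LS A ↔ ∃ v : List Bool, v.length ≤ q.eval (false :: x).length ∧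
      M.out A (pairBits v (false :: x)) = some [true]
    have h5 := hV (false :: x)
    rw [Set.mem_compl_iff, false_mem_tagL] at h5
    rw [h5]
    simp only [hM, Option.some.injEq]
  · rintro ⟨F, k, hF⟩
    refine h2 (Sum.inr (Sum.inr (Sum.inr (Sum.inl (F, k))))) fun x => ?_
    have h5 := hF (true :: x)
    rw [true_mem_tagL, not_not] at h5
    exact h5
  · rintro ⟨F, k, hF⟩
    refine h2 (Sum.inr (Sum.inr (Sum.inr (Sum.inr (F, k))))) fun x => ?_
    have h5 := hF (false :: x)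
    rw [Set.mem_compl_iff, false_mem_tagL, not_not] at h5
    exact h5

end Pool.Agent.H20NE
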