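import Pool.Agent.H620R2.Gauge2.Trans
import Pool.Agent.H620R2.Gauge.A2

/-!
# Polynomial space relative to an oracle which is computed with two questions
-/

set_option autoImplicit false

namespace Pool.Agent.H20NE

open Pool.Agent.NPC Pool.Agent.H622R2 Pool.Agent.H620R2.Gauge

/-- the state of the first machine -/
def st (s : List Bool) : List Bool := if s.getD 0 false then s.tail.tail else s.tail

theorem st_tt (b : Bool) (s : List Bool) : st (true :: b :: s) = s := rfl

theorem st_ff (s : List Bool) : st (false :: s) = s := rfl

/-- the action -/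
def ac2 (M : SAlg) (q₁ q₂ : List Bool → List Bool) (z : List Bool) : List Bool :=
  if (M.act (pairBits (unpair z).1 (st (unpair z).2))).head? = some false then
    (false :: if (unpair z).2.getD 0 false then
      q₂ (M.act (pairBits (unpair z).1 (st (unpair z).2))).tail
      else q₁ (M.act (pairBits (unpair z).1 (st (unpair z).2))).tail)
  else M.act (pairBits (unpair z).1 (st (unpair z).2))

/-- the next state -/
def nx2 (M : SAlg) (H : List Bool × Bool × Bool → Bool) (z : List Bool) : List Bool :=
  if (unpair z).2.tail.getD 0 false then
    false :: M.next (pairBits (unpair z).1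
      (H ((M.act (pairBits (unpair z).1 (st (unpair z).2.tail))).tail,
        (unpair z).2.tail.getD 1 false, (unpair z).2.getD 0 false) :: st (unpair z).2.tail))
  else true :: (unpair z).2.getD 0 false :: st (unpair z).2.tail

theorem poly_st : Poly st :=
  Poly.cond (Poly.getD (d := fun _ => false) Poly.id (NPC.Poly.const 0) (NPC.Poly.const false))
    (Poly.tail (Poly.tail Poly.id)) (Poly.tail Poly.id) |>.congr fun s => by
      unfold st
      cases s.getD 0 false <;> rfl

theorem poly_ac2 (M : SAlg) {q₁ q₂ : List Bool → List Bool} (h1 : Poly q₁) (h2 : Poly q₂) :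
    Poly (ac2 M q₁ q₂) := by
  have hA : Poly (fun z : List Bool => M.act (pairBits (unpair z).1 (st (unpair z).2))) :=
    (poly_of_polyTime M.act_poly).comp (poly_pairBits (Poly.fst poly_unpair)
      (poly_st.comp (Poly.snd poly_unpair)))
  have hg : Poly (fun z : List Bool => (unpair z).2.getD 0 false) :=
    Poly.getD (d := fun _ => false) (Poly.snd poly_unpair) (NPC.Poly.const 0)
      (NPC.Poly.const false)
  have h3 : Poly (fun z : List Bool => if (unpair z).2.getD 0 false then
      q₂ (M.act (pairBits (unpair z).1 (st (unpair z).2))).tail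
      else q₁ (M.act (pairBits (unpair z).1 (st (unpair z).2))).tail) :=
    (Poly.cond hg (h2.comp (Poly.tail hA)) (h1.comp (Poly.tail hA))).congr fun z => by
      cases (unpair z).2.getD 0 false <;> rfl
  exact Poly.ite (Poly.decide_eq (Poly.head? hA) (NPC.Poly.const (some false)))
    (Poly.cons (NPC.Poly.const false) h3) hA

theorem poly_nx2 (M : SAlg) {H : List Bool × Bool × Bool → Bool} (hH : Poly H) :
    Poly (nx2 M H) := by
  have ht : Poly (fun z : List Bool => (unpair z).2.tail) := Poly.tail (Poly.snd poly_unpair)
  have hA : Poly (fun z : List Bool => M.act (pairBits (unpair z).1 (st (unpair z).2.tail))) :=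
    (poly_of_polyTime M.act_poly).comp (poly_pairBits (Poly.fst poly_unpair) (poly_st.comp ht))
  have hg : Poly (fun z : List Bool => (unpair z).2.tail.getD 0 false) :=
    Poly.getD (d := fun _ => false) ht (NPC.Poly.const 0) (NPC.Poly.const false)
  have hg1 : Poly (fun z : List Bool => (unpair z).2.tail.getD 1 false) :=
    Poly.getD (d := fun _ => false) ht (NPC.Poly.const 1) (NPC.Poly.const false)
  have ha : Poly (fun z : List Bool => (unpair z).2.getD 0 false) :=
    Poly.getD (d := fun _ => false) (Poly.snd poly_unpair) (NPC.Poly.const 0)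
      (NPC.Poly.const false)
  have h3 : Poly (fun z : List Bool => false :: M.next (pairBits (unpair z).1
      (H ((M.act (pairBits (unpair z).1 (st (unpair z).2.tail))).tail,
        (unpair z).2.tail.getD 1 false, (unpair z).2.getD 0 false) :: st (unpair z).2.tail))) :=
    Poly.cons (NPC.Poly.const false) ((poly_of_polyTime M.next_poly).comp
      (poly_pairBits (Poly.fst poly_unpair) (Poly.cons (hH.comp (Poly.pair (Poly.tail hA)
        (Poly.pair hg1 ha))) (poly_st.comp ht))))
  have h4 : Poly (fun z : List Bool => true :: (unpair z).2.getD 0 false ::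
      st (unpair z).2.tail) :=
    Poly.cons (NPC.Poly.const true) (Poly.cons ha (poly_st.comp ht))
  exact (Poly.cond hg h3 h4).congr fun z => by
    unfold nx2
    cases (unpair z).2.tail.getD 0 false <;> rfl

theorem pspace_tt2 {C : Oracle} {q₁ q₂ : List Bool → List Bool} (h1 : Poly q₁) (h2 : Poly q₂)
    {H : List Bool × Bool × Bool → Bool} (hH : Poly H) {L : Set (List Bool)}
    (h : IsPSPACE (fun y => H (y, C (q₁ y), C (q₂ y))) L) : IsPSPACE C L := by
  obtain ⟨M, p, hM⟩ := h
  set B : Oracle := fun y => H (y, C (q₁ y), C (q₂ y)) with hB
  let M' : SAlg := ⟨ac2 M q₁ q₂, polyTime_of_poly_list (poly_ac2 M h1 h2), nx2 M H,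
    polyTime_of_poly_list (poly_nx2 M hH)⟩
  have hact : ∀ x s, M'.act (pairBits x s) = if (M.act (pairBits x (st s))).head? = some false
      then (false :: if s.getD 0 false then q₂ (M.act (pairBits x (st s))).tail
        else q₁ (M.act (pairBits x (st s))).tail) else M.act (pairBits x (st s)) := by
    intro x s
    show ac2 M q₁ q₂ (pairBits x s) = _
    unfold ac2
    rw [unpair_pairBits]
  have hnext : ∀ x a s, M'.next (pairBits x (a :: s)) = if s.getD 0 false then
      false :: M.next (pairBits x (H ((M.act (pairBits x (st s))).tail, s.getD 1 false, a) :: st s))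
      else true :: a :: st s := by
    intro x a s
    show nx2 M H (pairBits x (a :: s)) = _
    unfold nx2
    rw [unpair_pairBits]
    rfl
  -- forwards
  have hfw : ∀ x s', M'.Reach C x s' → M.Reach B x (st s') ∧ s'.length ≤ (st s').length + 2 ∧
      (s'.getD 0 false = true → ∃ q, M.act (pairBits x (st s')) = false :: q ∧
        s'.getD 1 false = C (q₁ q)) := by
    intro x s' h
    induction h with
    | start => exact ⟨SAlg.Reach.start, by simp, fun h => by simp at h⟩
    | @step s' q' _ hq ih =>
      obtain ⟨i1, i2, i3⟩ := ih
      rw [hact] at hq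
      obtain ⟨q, hq2⟩ : ∃ q, M.act (pairBits x (st s')) = false :: q := by
        rcases hc : M.act (pairBits x (st s')) with _ | ⟨c, q⟩
        · rw [hc] at hq
          simp at hq
        · cases c with
          | false => exact ⟨q, rfl⟩
          | true =>
            rw [hc] at hq
            simp at hq
      rw [hq2] at hq
      simp only [List.head?_cons, if_true, List.cons.injEq, true_and, List.tail_cons] at hq
      rw [hnext, hq2]
      cases hm : s'.getD 0 false with
      | true =>
        rw [hm] at hq
        simp only [if_true] at hq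
        obtain ⟨q'', h4, h5⟩ := i3 hm
        rw [hq2, List.cons.injEq] at h4
        rw [← h4.2] at h5
        simp only [if_true, List.tail_cons]
        have h6 : st (false :: M.next (pairBits x (H (q, s'.getD 1 false, C q') :: st s'))) =
            M.next (pairBits x (B q :: st s')) := by
          unfold st
          simp only [List.getD_cons_zero, Bool.false_eq_true, if_false, List.tail_cons]
          rw [hB, h5, ← hq]
        rw [h6]
        refine ⟨SAlg.Reach.step i1 hq2, ?_, fun h => ?_⟩
        · rw [List.length_cons]
          rw [h5, ← hq]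
          show (M.next (pairBits x (B q :: st s'))).length + 1 ≤ _
          omega
        · simp at h
      | false =>
        rw [hm] at hq
        simp only [Bool.false_eq_true, if_false] at hq ⊢
        have h6 : st (true :: C q' :: st s') = st s' := st_tt _ _
        rw [h6]
        refine ⟨i1, by simp, fun _ => ⟨q, hq2, ?_⟩⟩
        simp [hq]
  -- backwards
  have hbw : ∀ x s, M.Reach B x s → ∃ s', M'.Reach C x s' ∧ s'.getD 0 false = false ∧
      st s' = s := by
    intro x s h
    induction h with
    | start => exact ⟨[], SAlg.Reach.start, rfl, rfl⟩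
    | @step s q _ hq ih =>
      obtain ⟨s', i1, i2, rfl⟩ := ih
      have e1 : M'.act (pairBits x s') = false :: q₁ q := by
        rw [hact, hq, i2]
        simp
      have r1 := SAlg.Reach.step i1 e1
      rw [hnext, i2] at r1
      simp only [Bool.false_eq_true, if_false] at r1
      have e2 : st (true :: C (q₁ q) :: st s') = st s' := st_tt _ _
      have e3 : M'.act (pairBits x (true :: C (q₁ q) :: st s')) = false :: q₂ q := by
        rw [hact, e2, hq]
        simp
      have r2 := SAlg.Reach.step r1 e3
      rw [hnext, e2, hq] at r2
      simp only [List.getD_cons_zero, if_true, List.tail_cons, List.getD_cons_succ] at r2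
      refine ⟨_, r2, rfl, ?_⟩
      unfold st
      simp only [List.getD_cons_zero, Bool.false_eq_true, if_false, List.tail_cons]
      rfl
  refine ⟨M', p + Polynomial.C 2, fun x => ⟨fun s' hs' => ?_, ?_⟩⟩
  · obtain ⟨i1, i2, _⟩ := hfw x s' hs'
    have := (hM x).1 _ i1
    rw [Polynomial.eval_add, Polynomial.eval_C]
    omega
  · obtain ⟨s, z, h3, h4, h5⟩ := (hM x).2
    obtain ⟨s', i1, i2, rfl⟩ := hbw x s h3
    refine ⟨s', z, i1, ?_, h5⟩
    rw [hact, h4]
    simp

end Pool.Agent.H20NE
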