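import Pool.Agent.H20RD.Tag
import Pool.Agent.H20RD.Lang2

/-!
# Parity checks on the cells of an oracle
-/

set_option autoImplicit false

namespace Pool.Agent.H20NE

open Pool.Agent.NPC Pool.Agent.H622R2 Pool.Agent.H620R2.Gauge
open Pool.Agent.H20RD (poly_rep length_unpair_snd)

/-- the number of the strings of a cell -/
def nP (x : List Bool) : ℕ := (unpair x).1.length
/-- the table of the checks -/
def tb (x : List Bool) : List Bool := (unpair (unpair x).2).1
/-- the values of the checks -/
def vc (x : List Bool) : List Bool := (unpair (unpair x).2).2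

/-- the string number `p` of the cell `z` with `P` strings -/
def ad (P : ℕ) (z : List Bool) (p : ℕ) : List Bool :=
  z ++ (List.replicate p true ++ List.replicate (P - p) false)

theorem length_ad {P : ℕ} {z : List Bool} {p : ℕ} (hp : p ≤ P) : (ad P z p).length = z.length + P := by
  unfold ad
  simp only [List.length_append, List.length_replicate]
  omega

theorem ad_inj {P : ℕ} {z z' : List Bool} {p p' : ℕ} (hz : z.length = z'.length)
    (h : ad P z p = ad P z' p') : z = z' ∧ p = p' := by
  unfold ad at h
  obtain ⟨h1, h2⟩ := List.append_inj h hz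
  exact ⟨h1, Pool.Agent.H20RD.rep_inj h2⟩

/-- a check: the parity of some bits -/
def chk (P : ℕ) (t : ℕ → Bool) (f : ℕ → Bool) : Bool :=
  decide (((List.range P).filter fun p => t p && f p).length % 2 = 1)

/-- the test language: some cell has the given values of the checks -/
def LS (A : Oracle) : Set (List Bool) :=
  {x | ∃ z : List Bool, z.length + 1 = (vc x).length ∧ ∀ r < (vc x).length,
    chk (nP x) (fun p => (tb x).getD (r * nP x + p) false) (fun p => A (ad (nP x) z p)) =
      (vc x).getD r false}

/-- the input -/
def inp (P : ℕ) (t c : List Bool) : List Bool :=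
  pairBits (List.replicate P true) (pairBits t c)

theorem nP_inp (P : ℕ) (t c : List Bool) : nP (inp P t c) = P := by
  simp [nP, inp, unpair_pairBits]
theorem tb_inp (P : ℕ) (t c : List Bool) : tb (inp P t c) = t := by
  simp [tb, inp, unpair_pairBits]
theorem vc_inp (P : ℕ) (t c : List Bool) : vc (inp P t c) = c := by
  simp [vc, inp, unpair_pairBits]

theorem length_inp (P : ℕ) (t c : List Bool) :
    (inp P t c).length = 2 * P + 1 + (2 * t.length + 1 + c.length) := by
  unfold inp
  rw [A2.length_pairBits, A2.length_pairBits, List.length_replicate]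
  ring

section
variable {α : Type} [TEnc α]

theorem poly_tb : Poly tb := Poly.fst (poly_unpair.comp (Poly.snd poly_unpair))
theorem poly_vc : Poly vc := Poly.snd (poly_unpair.comp (Poly.snd poly_unpair))
theorem upoly_nP {f : α → List Bool} (hf : Poly f) : UPoly fun a => nP (f a) :=
  UPoly.length (Poly.fst (poly_unpair.comp hf))

theorem poly_ad {P p : α → ℕ} {z : α → List Bool} (hP : UPoly P) (hz : Poly z) (hp : UPoly p) :
    Poly fun a => ad (P a) (z a) (p a) := by
  have h1 : UPoly (fun a => P a - p a) :=
    UPoly.of_le (Poly.sub hP.toPoly hp.toPoly) hP fun a => Nat.sub_le _ _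
  exact Poly.append hz (Poly.append (poly_rep true hp) (poly_rep false h1))

end

/-- the questions about a cell -/
def qs (y : List Bool) : List (List Bool) :=
  (List.range (nP (unpair y).2)).map fun p =>
    ad (nP (unpair y).2) (unpair y).1 (min p (nP (unpair y).2))

theorem poly_qs : Poly qs := by
  have hx : Poly (fun y => (unpair y).2) := Poly.snd poly_unpair
  refine NPC.Poly.map (upoly_nP hx).range (F := fun y p =>
    ad (nP (unpair y).2) (unpair y).1 (min p (nP (unpair y).2))) ?_
  have hx' : Poly (fun q : List Bool × ℕ => (unpair q.1).2) := hx.comp (Poly.fst Poly.id)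
  have hw' : Poly (fun q : List Bool × ℕ => (unpair q.1).1) :=
    (Poly.fst poly_unpair).comp (Poly.fst Poly.id)
  have hi : UPoly (fun q : List Bool × ℕ => min q.2 (nP (unpair q.1).2)) :=
    UPoly.of_le (Poly.min (Poly.snd Poly.id) (upoly_nP hx').toPoly) (upoly_nP hx')
      fun a => Nat.min_le_right _ _
  exact poly_ad (upoly_nP hx') hw' hi

/-- the answers are right -/
def fin (q : List Bool × List Bool) : List Bool :=
  [decide ((unpair q.1).1.length + 1 = (vc (unpair q.1).2).length) &&
    (List.range (vc (unpair q.1).2).length).all fun r =>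
      decide (decide (((List.range (nP (unpair q.1).2)).filter fun p =>
        (tb (unpair q.1).2).getD (r * nP (unpair q.1).2 + p) false &&
          q.2.getD p false).length % 2 = 1) = (vc (unpair q.1).2).getD r false)]

theorem poly_fin : Poly fin := by
  have hy : Poly (fun q : List Bool × List Bool => unpair q.1) := poly_unpair.comp (Poly.fst Poly.id)
  have hx := Poly.snd hy
  refine Poly.cons ?_ (NPC.Poly.const [])
  refine Pool.Agent.H20RD.poly_and (Poly.decide_eq (Poly.add
    (UPoly.length (Poly.fst hy)).toPoly (NPC.Poly.const 1)) (UPoly.length (poly_vc.comp hx)).toPoly) ?_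
  refine Poly.all (p := fun (q : List Bool × List Bool) r =>
    decide (decide (((List.range (nP (unpair q.1).2)).filter fun p =>
        (tb (unpair q.1).2).getD (r * nP (unpair q.1).2 + p) false &&
          q.2.getD p false).length % 2 = 1) = (vc (unpair q.1).2).getD r false))
    (UPoly.length (poly_vc.comp hx)).range ?_
  have hq : Poly fun q : (List Bool × List Bool) × ℕ => q.1 := Poly.fst Poly.id
  have hr : Poly fun q : (List Bool × List Bool) × ℕ => q.2 := Poly.snd Poly.id
  have hx2 : Poly fun q : (List Bool × List Bool) × ℕ => (unpair q.1.1).2 := hx.comp hq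
  refine Poly.decide_eq ?_ (Poly.getD (d := fun _ => false) (poly_vc.comp hx2) hr
    (NPC.Poly.const false))
  refine Poly.decide_eq (Poly.mod (Poly.length ?_) (NPC.Poly.const 2)) (NPC.Poly.const 1)
  refine Poly.filter (p := fun (q : (List Bool × List Bool) × ℕ) p =>
    (tb (unpair q.1.1).2).getD (q.2 * nP (unpair q.1.1).2 + p) false && q.1.2.getD p false)
    (upoly_nP hx2).range ?_
  have hq3 : Poly fun q : ((List Bool × List Bool) × ℕ) × ℕ => q.1 := Poly.fst Poly.id
  have hp3 : Poly fun q : ((List Bool × List Bool) × ℕ) × ℕ => q.2 := Poly.snd Poly.id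
  exact Pool.Agent.H20RD.poly_and (Poly.getD (d := fun _ => false) (poly_tb.comp (hx2.comp hq3))
    (Poly.add (Poly.mul (hr.comp hq3) ((upoly_nP hx2).toPoly.comp hq3)) hp3)
    (NPC.Poly.const false))
    (Poly.getD (d := fun _ => false) (Poly.snd (hq.comp hq3)) hp3 (NPC.Poly.const false))

theorem chk_congr {P : ℕ} {t t' f f' : ℕ → Bool} (h : ∀ p < P, (t p && f p) = (t' p && f' p)) :
    chk P t f = chk P t' f' := by
  unfold chk
  congr 2
  congr 1
  congr 1
  refine List.filter_congr fun p hp => ?_
  exact h p (List.mem_range.1 hp)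

theorem isNP_LS (A : Oracle) : IsNP A (LS A) := by
  refine ⟨_, Polynomial.X, IsFP.tt poly_qs poly_fin, fun x => ?_⟩
  simp only [fin, unpair_pairBits, qs, List.cons.injEq, and_true, Bool.and_eq_true,
    decide_eq_true_eq, List.all_eq_true, Polynomial.eval_X]
  have hle : (vc x).length ≤ x.length :=
    (length_unpair_snd _).trans (length_unpair_snd _)
  have key : ∀ (z : List Bool) (r : ℕ), decide (((List.range (nP x)).filter fun p =>
      (tb x).getD (r * nP x + p) false && (((List.range (nP x)).map fun p =>
        ad (nP x) z (min p (nP x))).map A).getD p false).length % 2 = 1) =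
      chk (nP x) (fun p => (tb x).getD (r * nP x + p) false) (fun p => A (ad (nP x) z p)) := by
    intro z r
    refine chk_congr fun p hp => ?_
    congr 1
    rw [List.getD_eq_getElem _ _ (by simpa using hp)]
    simp only [List.map_map, List.getElem_map, List.getElem_range, Function.comp_apply]
    rw [Nat.min_eq_left hp.le]
  constructor
  · rintro ⟨z, h1, h2⟩
    refine ⟨z, by omega, h1, fun r hr => ?_⟩
    rw [key]
    exact h2 r (List.mem_range.1 hr)
  · rintro ⟨z, _, h1, h2⟩
    refine ⟨z, h1, fun r hr => ?_⟩
    rw [← key]
    exact h2 r (List.mem_range.2 hr)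

end Pool.Agent.H20NE
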